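import Pool.Agent.Run7.h420.TM.Stm

/-!
Project TM, piece FREE: the free part of the circle shift is Borel and conull.
-/

set_option autoImplicit false

namespace Pool.Agent.Run7.h420.TM

open MeasureTheory Filter Topology Set

theorem free_circle_point (x : UnitAddCircle) : (volume : Measure UnitAddCircle) {x} = 0 := by
  have h := AddCircle.volume_closedBall (T := (1 : ℝ)) (x := x) 0
  rw [Metric.closedBall_zero] at h
  rw [h]
  simp

theorem t_FREE : S_PROBS → S_FREE := by
  rintro ⟨hP1, _⟩ G _ _
  have := hP1
  have hev : ∀ h : G, Measurable (fun x : XX G => x h) := fun h =>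
    (measurable_pi_apply h : Measurable (fun f : G → UnitAddCircle => f h))
  have hmeas : ∀ g : G, MeasurableSet {x : XX G | g • x = x} := by
    intro g
    have : {x : XX G | g • x = x} = ⋂ h : G, {x : XX G | x (h * g) = x h} := by
      ext x
      simp only [mem_ofPred_eq, mem_iInter]
      constructor
      · intro hx h
        exact congrFun hx h
      · intro hx
        funext h
        exact hx h
    rw [this]
    refine MeasurableSet.iInter fun h => ?_
    exact measurableSet_eq_fun (hev (h * g)) (hev h)
  have hnull : ∀ g : G, g ≠ 1 → (muX G) {x : XX G | g • x = x} = 0 := by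
    intro g hg
    have hsub : {x : XX G | g • x = x} ⊆
        (fun x : G → UnitAddCircle => (x g, x 1)) ⁻¹' {p | p.1 = p.2} := by
      intro x hx
      have h1 : (g • x) 1 = x 1 := congrFun hx 1
      rw [smul_apply, one_mul] at h1
      exact h1
    refine measure_mono_null hsub ?_
    have hD : MeasurableSet {p : UnitAddCircle × UnitAddCircle | p.1 = p.2} :=
      measurableSet_eq_fun measurable_fst measurable_snd
    have hmap := Measure.infinitePi_map_eval_prod
      (P := fun _ : G => (volume : Measure UnitAddCircle)) hg
    have happ : (Measure.infinitePi (fun _ : G => (volume : Measure UnitAddCircle)))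
        ((fun x : G → UnitAddCircle => (x g, x 1)) ⁻¹' {p | p.1 = p.2}) = 0 := by
      rw [← Measure.map_apply (by fun_prop) hD, hmap, Measure.measure_prod_null hD]
      filter_upwards with x
      have hx : Prod.mk x ⁻¹' {p : UnitAddCircle × UnitAddCircle | p.1 = p.2} = {x} := by
        ext y
        simp [eq_comm]
      rw [hx]
      exact free_circle_point x
    exact happ
  have hU : {x : XX G | ∀ g : G, g • x = x → g = 1}ᶜ =
      ⋃ g : G, ⋃ _ : g ≠ 1, {x : XX G | g • x = x} := by
    ext x
    simp only [mem_compl_iff, mem_ofPred_eq, not_forall, mem_iUnion, exists_prop]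
    constructor
    · rintro ⟨g, h1, h2⟩
      exact ⟨g, h2, h1⟩
    · rintro ⟨g, h1, h2⟩
      exact ⟨g, h2, h1⟩
  constructor
  · rw [← MeasurableSet.compl_iff, hU]
    exact MeasurableSet.iUnion fun g => MeasurableSet.iUnion fun _ => hmeas g
  · rw [hU]
    exact measure_iUnion_null fun g => measure_iUnion_null fun hg => hnull g hg

end Pool.Agent.Run7.h420.TM
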